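import Pool.Agent.LibCod83.Low

/-!
Bounded sequences of square summable functions on copies of a group which are concentrated near
hyperfinite sheets.
-/

set_option autoImplicit false

namespace Pool.Agent.LibQM51

open Pool.Agent.LibZIS Filter Topology

/-- copies of a group. -/
def XX (G : Type) : Type := G × ℕ

instance {G : Type} [Group G] : MulAction G (XX G) where
  smul g p := (g * p.1, p.2)
  one_smul p := by
    show ((1 : G) * p.1, p.2) = p
    rw [one_mul]
    rfl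
  mul_smul g h p := by
    show ((g * h) * p.1, p.2) = (g * (h * p.1), p.2)
    rw [mul_assoc]

lemma smul_XX {G : Type} [Group G] (g : G) (p : XX G) : g • p = (g * p.1, p.2) := rfl

/-- the bounded sequences in `ℓ²(G × ℕ)`. -/
noncomputable abbrev BB (G : Type) := lp (fun _ : ℕ => Raw.L2 (XX G)) ⊤

/-- a sequence of finite sets with maps `(f, lab)` to `G × ℕ`, and a sequence of positive numbers:
the sets can be partitioned into pieces of bounded diameter such that few points have neighbours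
(with the same label) in another piece. -/
structure SH (G ι : Type) [Group G] where
  /-- the sets -/
  D : ℕ → Finset ι
  /-- the map to the group -/
  f : ℕ → ι → G
  /-- the labels -/
  lab : ℕ → ι → ℕ
  /-- the normalisation -/
  a : ℕ → ℝ
  pos : ∀ r, 0 < a r
  hyp : ∀ (K : Finset G) (ε : ℝ), 0 < ε → ∃ N : Finset G, ∀ᶠ r in atTop, ∃ (E : Setoid ι)
    (W : Finset ι), (W.card : ℝ) ≤ ε * a r ∧
    (∀ x ∈ D r, ∀ y ∈ D r, E x y → lab r x = lab r y ∧ (f r x)⁻¹ * f r y ∈ N) ∧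
    ∀ x ∈ D r, x ∉ W → ∀ y ∈ D r, lab r x = lab r y → (f r x)⁻¹ * f r y ∈ K → E x y

variable {G ι : Type} [Group G] (c : SH G ι)

/-- the points at bounded distance of the image. -/
def KS (K : Finset G) (r : ℕ) : Set (XX G) :=
  {x | ∃ k ∈ K, ∃ p ∈ c.D r, x = (k * (c.f r p)⁻¹, c.lab r p)}

lemma KS_mono {K K' : Finset G} (h : K ⊆ K') (r : ℕ) : KS c K r ⊆ KS c K' r :=
  fun _ ⟨k, hk, p, hp⟩ => ⟨k, h hk, p, hp⟩

lemma KS_mul [DecidableEq G] {K : Finset G} {r : ℕ} {x : XX G} (g : G) (hx : g⁻¹ • x ∈ KS c K r) :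
    x ∈ KS c (K.image (g * ·)) r := by
  obtain ⟨k, hk, p, hp, e⟩ := hx
  refine ⟨g * k, Finset.mem_image_of_mem _ hk, p, hp, ?_⟩
  have h1 : x = g • (g⁻¹ • x) := (smul_inv_smul g x).symm
  rw [h1, e, smul_XX]
  exact Prod.ext (mul_assoc g k _).symm rfl

/-- bounded functions supported near the image. -/
def Bd (K : Finset G) (C : ℝ) (u : BB G) : Prop :=
  ∀ r x, ‖u r x‖ * √(c.a r) ≤ C ∧ (u r x ≠ 0 → x ∈ KS c K r)

/-- concentrated sequences. -/
def Loc (u : BB G) : Prop :=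
  ∀ ε : ℝ, 0 < ε → ∃ (K : Finset G) (C : ℝ) (u' : BB G), Bd c K C u' ∧
    ∀ᶠ r in atTop, ‖u r - u' r‖ ≤ ε

omit [Group G] in
lemma bb_apply_le (u : BB G) (r : ℕ) : ‖u r‖ ≤ ‖u‖ := lp.norm_apply_le_norm (by simp) u r

omit [Group G] in
lemma l2_apply_le (ξ : Raw.L2 (XX G)) (x : XX G) : ‖ξ x‖ ≤ ‖ξ‖ := lp.norm_apply_le_norm (by simp) ξ x

lemma Bd.zero : Bd c ∅ 0 (0 : BB G) := by
  intro r x
  constructor
  · show ‖(0 : ℂ)‖ * √(c.a r) ≤ 0
    simp
  · intro h
    exact absurd rfl h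

lemma Bd.add [DecidableEq G] {K K' : Finset G} {C C' : ℝ} {u v : BB G} (hu : Bd c K C u)
    (hv : Bd c K' C' v) : Bd c (K ∪ K') (C + C') (u + v) := by
  intro r x
  constructor
  · have h1 : ‖(u + v) r x‖ ≤ ‖u r x‖ + ‖v r x‖ := norm_add_le _ _
    have h2 := (hu r x).1
    have h3 := (hv r x).1
    calc ‖(u + v) r x‖ * √(c.a r) ≤ (‖u r x‖ + ‖v r x‖) * √(c.a r) := by gcongr
      _ ≤ C + C' := by rw [add_mul]; exact add_le_add h2 h3
  · intro h
    by_cases h1 : u r x = 0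
    · by_cases h2 : v r x = 0
      · refine absurd ?_ h
        show u r x + v r x = 0
        rw [h1, h2, add_zero]
      · exact KS_mono c Finset.subset_union_right r ((hv r x).2 h2)
    · exact KS_mono c Finset.subset_union_left r ((hu r x).2 h1)

lemma Bd.smul {K : Finset G} {C : ℝ} {u : BB G} (hu : Bd c K C u) (z : ℂ) :
    Bd c K (‖z‖ * C) (z • u) := by
  intro r x
  constructor
  · have h1 : ‖(z • u) r x‖ = ‖z‖ * ‖u r x‖ := norm_mul _ _
    rw [h1, mul_assoc]
    exact mul_le_mul_of_nonneg_left (hu r x).1 (norm_nonneg _)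
  · intro h
    refine (hu r x).2 fun h1 => h ?_
    show z * u r x = 0
    rw [h1, mul_zero]

lemma Loc.add {u v : BB G} (hu : Loc c u) (hv : Loc c v) : Loc c (u + v) := by
  classical
  intro ε hε
  obtain ⟨K, C, u', hu', hu1⟩ := hu (ε / 2) (by positivity)
  obtain ⟨K', C', v', hv', hv1⟩ := hv (ε / 2) (by positivity)
  refine ⟨K ∪ K', C + C', u' + v', hu'.add c hv', ?_⟩
  filter_upwards [hu1, hv1] with r h1 h2
  have h3 : (u + v) r - (u' + v') r = (u r - u' r) + (v r - v' r) := by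
    show (u r + v r) - (u' r + v' r) = _
    abel
  rw [h3]
  exact (norm_add_le _ _).trans (by linarith)

lemma Loc.smul {u : BB G} (hu : Loc c u) (z : ℂ) : Loc c (z • u) := by
  intro ε hε
  obtain ⟨K, C, u', hu', hu1⟩ := hu (ε / (‖z‖ + 1)) (by positivity)
  refine ⟨K, ‖z‖ * C, z • u', hu'.smul c z, ?_⟩
  filter_upwards [hu1] with r h1
  have h3 : (z • u) r - (z • u') r = z • (u r - u' r) := by
    rw [smul_sub]
    rfl
  rw [h3, norm_smul]
  calc ‖z‖ * ‖u r - u' r‖ ≤ (‖z‖ + 1) * (ε / (‖z‖ + 1)) := by gcongr; linarith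
    _ = ε := by field_simp

lemma Loc.of_tendsto {u : BB G} (hu : Tendsto (fun r => ‖u r‖) atTop (𝓝 0)) : Loc c u := by
  intro ε hε
  refine ⟨∅, 0, 0, Bd.zero c, ?_⟩
  filter_upwards [hu.eventually (ge_mem_nhds hε)] with r h
  have h3 : u r - (0 : BB G) r = u r := sub_zero (u r)
  rw [h3]
  exact h

/-- the closed subspace of the concentrated sequences. -/
def locS : Submodule ℂ (BB G) where
  carrier := {u | Loc c u}
  add_mem' := fun hu hv => Loc.add c hu hv
  zero_mem' := Loc.of_tendsto c (by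
    have h : (fun r => ‖(0 : BB G) r‖) = fun _ => (0 : ℝ) := by
      funext r
      show ‖(0 : Raw.L2 (XX G))‖ = 0
      exact norm_zero
    rw [h]
    exact tendsto_const_nhds)
  smul_mem' := fun z _ hu => Loc.smul c hu z

lemma mem_locS {u : BB G} : u ∈ locS c ↔ Loc c u := Iff.rfl

lemma isClosed_locS : IsClosed (locS c : Set (BB G)) := by
  rw [← isSeqClosed_iff_isClosed]
  intro u v hu huv ε hε
  have h1 : ∀ᶠ n in atTop, ‖u n - v‖ < ε / 2 := by
    have := (tendsto_iff_norm_sub_tendsto_zero.1 huv).eventually (gt_mem_nhds (half_pos hε))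
    exact this
  obtain ⟨n, hn⟩ := h1.exists
  obtain ⟨K, C, u', hu', hu1⟩ := hu n (ε / 2) (by positivity)
  refine ⟨K, C, u', hu', ?_⟩
  filter_upwards [hu1] with r h2
  have h3 : v r - u' r = (u n r - u' r) - (u n - v) r := by
    show _ = (u n r - u' r) - (u n r - v r)
    abel
  rw [h3]
  have h4 := bb_apply_le (u n - v) r
  exact (norm_sub_le _ _).trans (by linarith)

instance : CompleteSpace (locS c) := (isClosed_locS c).completeSpace_coe

/-- the null sequences. -/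
def nul : Submodule ℂ (locS c) where
  carrier := {u | Tendsto (fun r => ‖u.1 r‖) atTop (𝓝 0)}
  add_mem' := by
    intro u v hu hv
    refine squeeze_zero (fun _ => norm_nonneg _) (fun r => norm_add_le (u.1 r) (v.1 r)) ?_
    simpa using hu.add hv
  zero_mem' := by
    have h : (fun r => ‖((0 : locS c) : BB G) r‖) = fun _ => (0 : ℝ) := by
      funext r
      show ‖(0 : Raw.L2 (XX G))‖ = 0
      exact norm_zero
    rw [Set.mem_ofPred_eq, h]
    exact tendsto_const_nhds
  smul_mem' := by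
    intro z u hu
    have h : (fun r => ‖((z • u : locS c) : BB G) r‖) = fun r => ‖z‖ * ‖u.1 r‖ := by
      funext r
      exact norm_smul z (u.1 r)
    rw [Set.mem_ofPred_eq, h]
    simpa using hu.const_mul ‖z‖

lemma mem_nul {u : locS c} : u ∈ nul c ↔ Tendsto (fun r => ‖u.1 r‖) atTop (𝓝 0) := Iff.rfl

instance isClosed_nul : IsClosed (nul c : Set (locS c)) := by
  rw [← isSeqClosed_iff_isClosed]
  intro u v hu huv
  rw [SetLike.mem_coe, mem_nul, tendsto_order]
  refine ⟨fun a ha => Eventually.of_forall fun r => lt_of_lt_of_le ha (norm_nonneg _),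
    fun ε hε => ?_⟩
  have h1 : ∀ᶠ n in atTop, ‖u n - v‖ < ε / 2 :=
    (tendsto_iff_norm_sub_tendsto_zero.1 huv).eventually (gt_mem_nhds (half_pos hε))
  obtain ⟨n, hn⟩ := h1.exists
  have h2 : Tendsto (fun r => ‖(u n).1 r‖) atTop (𝓝 0) := hu n
  filter_upwards [h2.eventually (gt_mem_nhds (half_pos hε))] with r h3
  have h4 : v.1 r = (u n).1 r - (u n - v).1 r := by
    show _ = (u n).1 r - ((u n).1 r - v.1 r)
    abel
  have h5 : ‖(u n - v).1 r‖ ≤ ‖u n - v‖ := bb_apply_le (u n - v).1 r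
  rw [h4]
  exact lt_of_le_of_lt (norm_sub_le _ _) (by linarith)

/-- the asymptotic Banach space. -/
abbrev V : Type := locS c ⧸ nul c

noncomputable instance instNormedV : NormedAddCommGroup (V c) :=
  Submodule.Quotient.normedAddCommGroup (nul c)

noncomputable instance instNormedSpaceV : NormedSpace ℂ (V c) :=
  Submodule.Quotient.normedSpace (nul c) ℂ

instance instCompleteV : CompleteSpace (V c) := inferInstance

/-- the class of a sequence. -/
noncomputable def cl (u : BB G) (hu : Loc c u) : V c := Submodule.Quotient.mk ⟨u, hu⟩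

lemma cl_surj (v : V c) : ∃ u hu, cl c u hu = v := by
  obtain ⟨⟨u, hu⟩, h⟩ := Submodule.Quotient.mk_surjective _ v
  exact ⟨u, hu, h⟩

lemma cl_eq_iff {u v : BB G} (hu : Loc c u) (hv : Loc c v) :
    cl c u hu = cl c v hv ↔ Tendsto (fun r => ‖u r - v r‖) atTop (𝓝 0) :=
  Submodule.Quotient.eq _

lemma cl_add {u v : BB G} (hu : Loc c u) (hv : Loc c v) :
    cl c u hu + cl c v hv = cl c (u + v) (hu.add c hv) := rfl

lemma cl_smul {u : BB G} (hu : Loc c u) (z : ℂ) : z • cl c u hu = cl c (z • u) (hu.smul c z) := rfl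

/-- cutting off the beginning of a sequence. -/
noncomputable def head (u : BB G) (N : ℕ) : BB G :=
  ⟨fun r => if r < N then u r else 0, memℓp_infty ⟨‖u‖, by
    rintro _ ⟨r, rfl⟩
    show ‖(if r < N then u r else 0 : Raw.L2 (XX G))‖ ≤ ‖u‖
    split_ifs
    · exact bb_apply_le u r
    · rw [norm_zero]; exact norm_nonneg _⟩⟩

omit [Group G] in
lemma head_apply (u : BB G) (N r : ℕ) : head u N r = if r < N then u r else 0 := rfl

omit [Group G] in
lemma head_tendsto (u : BB G) (N : ℕ) : Tendsto (fun r => ‖head u N r‖) atTop (𝓝 0) := by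
  refine tendsto_const_nhds.congr' ?_
  filter_upwards [eventually_ge_atTop N] with r hr
  rw [head_apply, if_neg (not_lt.2 hr), norm_zero]

/-- an eventual bound is a bound of the norm of the class. -/
lemma norm_cl_le {u : BB G} (hu : Loc c u) {C : ℝ} (hC : 0 ≤ C) (h : ∀ᶠ r in atTop, ‖u r‖ ≤ C) :
    ‖cl c u hu‖ ≤ C := by
  obtain ⟨N, hN⟩ := eventually_atTop.1 h
  have h1 : Loc c (head u N) := Loc.of_tendsto c (head_tendsto u N)
  have h2 : Loc c (u - head u N) := (locS c).sub_mem hu h1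
  have h3 : cl c u hu = cl c (u - head u N) h2 := by
    rw [cl_eq_iff]
    have h4 : (fun r => ‖u r - (u - head u N) r‖) = fun r => ‖head u N r‖ := by
      funext r
      congr 1
      show u r - (u r - head u N r) = _
      abel
    rw [h4]
    exact head_tendsto u N
  rw [h3]
  refine (Submodule.Quotient.norm_mk_le (nul c) _).trans ?_
  refine lp.norm_le_of_forall_le hC fun r => ?_
  show ‖u r - head u N r‖ ≤ C
  rw [head_apply]
  split_ifs with hr
  · rw [sub_self, norm_zero]; exact hC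
  · rw [sub_zero]; exact hN r (not_lt.1 hr)

/-- the norm of the class is an eventual bound. -/
lemma eventually_le {u : BB G} (hu : Loc c u) {ε : ℝ} (hε : 0 < ε) :
    ∀ᶠ r in atTop, ‖u r‖ ≤ ‖cl c u hu‖ + ε := by
  obtain ⟨⟨v, hv⟩, h1, h2⟩ := Submodule.Quotient.norm_mk_lt (S := nul c) (cl c u hu)
    (half_pos hε)
  have h3 : Tendsto (fun r => ‖v r - u r‖) atTop (𝓝 0) := (cl_eq_iff c hv hu).1 h1
  filter_upwards [h3.eventually (gt_mem_nhds (half_pos hε))] with r hr
  have h4 : u r = v r - (v r - u r) := by abel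
  have h5 : ‖v r‖ ≤ ‖v‖ := bb_apply_le v r
  have h6 : ‖v‖ < ‖cl c u hu‖ + ε / 2 := h2
  rw [h4]
  exact (norm_sub_le _ _).trans (by linarith)

/-- a sequence of functions given by its values. -/
noncomputable def mkB (w : ℕ → XX G → ℂ) (C : ℝ)
    (h : ∀ r, (Summable fun x => ‖w r x‖ ^ 2) ∧ ∑' x, ‖w r x‖ ^ 2 ≤ C ^ 2) (hC : 0 ≤ C) : BB G :=
  ⟨fun r => ⟨w r, memℓp_gen (by simpa using (h r).1)⟩, memℓp_infty ⟨C, by
    rintro _ ⟨r, rfl⟩
    refine le_of_sq_le_sq ?_ hC
    show ‖(⟨w r, _⟩ : Raw.L2 (XX G))‖ ^ 2 ≤ C ^ 2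
    rw [Raw.norm_sq_eq]
    exact (h r).2⟩⟩

omit [Group G] in
lemma mkB_apply (w : ℕ → XX G → ℂ) (C : ℝ)
    (h : ∀ r, (Summable fun x => ‖w r x‖ ^ 2) ∧ ∑' x, ‖w r x‖ ^ 2 ≤ C ^ 2) (hC : 0 ≤ C) (r : ℕ)
    (x : XX G) : mkB w C h hC r x = w r x := rfl

omit [Group G] in
/-- comparison of norms. -/
lemma norm_le_of_le {ξ η : Raw.L2 (XX G)} (h : ∀ x, ‖ξ x‖ ≤ ‖η x‖) : ‖ξ‖ ≤ ‖η‖ := by
  refine le_of_sq_le_sq ?_ (norm_nonneg _)
  rw [Raw.norm_sq_eq, Raw.norm_sq_eq]
  exact (Raw.summable_sq ξ).tsum_le_tsum (fun x => by have := h x; gcongr) (Raw.summable_sq η)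

omit [Group G] in
/-- a sequence dominated by a bounded one. -/
lemma exists_dom (u : BB G) (w : ℕ → XX G → ℂ) (h : ∀ r x, ‖w r x‖ ≤ ‖u r x‖) :
    ∃ v : BB G, ∀ r x, v r x = w r x := by
  have hs : ∀ r, Summable fun x => ‖w r x‖ ^ 2 := fun r =>
    Summable.of_nonneg_of_le (fun _ => by positivity)
      (fun x => by have := h r x; gcongr) (Raw.summable_sq (u r))
  refine ⟨mkB w ‖u‖ (fun r => ⟨hs r, ?_⟩) (norm_nonneg _), fun r x => rfl⟩
  calc ∑' x, ‖w r x‖ ^ 2 ≤ ∑' x, ‖u r x‖ ^ 2 :=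
        (hs r).tsum_le_tsum (fun x => by have := h r x; gcongr) (Raw.summable_sq (u r))
    _ = ‖u r‖ ^ 2 := (Raw.norm_sq_eq _).symm
    _ ≤ ‖u‖ ^ 2 := by have := bb_apply_le u r; gcongr

/-- solidity: sequences dominated by concentrated ones are concentrated. -/
lemma Loc.of_le {u v : BB G} (hu : Loc c u) (h : ∀ r x, ‖v r x‖ ≤ ‖u r x‖) : Loc c v := by
  intro ε hε
  obtain ⟨K, C, u', hu', hu1⟩ := hu ε hε
  obtain ⟨v', hv'⟩ := exists_dom u' (fun r x => if ‖v r x‖ ≤ ‖u' r x‖ then v r x else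
    (‖u' r x‖ / ‖v r x‖ : ℝ) * v r x) (fun r x => by
      simp only
      split_ifs with h1
      · exact h1
      · push Not at h1
        have h2 : 0 < ‖v r x‖ := lt_of_le_of_lt (norm_nonneg _) h1
        rw [norm_mul, Complex.norm_real, Real.norm_eq_abs, abs_of_nonneg (by positivity),
          div_mul_cancel₀ _ h2.ne'])
  have hle : ∀ r x, ‖v' r x‖ ≤ ‖u' r x‖ := by
    intro r x
    rw [hv']
    split_ifs with h1
    · exact h1
    · push Not at h1
      have h2 : 0 < ‖v r x‖ := lt_of_le_of_lt (norm_nonneg _) h1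
      rw [norm_mul, Complex.norm_real, Real.norm_eq_abs, abs_of_nonneg (by positivity),
        div_mul_cancel₀ _ h2.ne']
  refine ⟨K, C, v', fun r x => ⟨?_, fun hx => (hu' r x).2 fun h0 => hx ?_⟩, ?_⟩
  · exact (mul_le_mul_of_nonneg_right (hle r x) (Real.sqrt_nonneg _)).trans (hu' r x).1
  · have := hle r x
    rw [h0, norm_zero] at this
    exact norm_le_zero_iff.1 this
  · filter_upwards [hu1] with r hr
    refine (norm_le_of_le fun x => ?_).trans hr
    show ‖v r x - v' r x‖ ≤ ‖u r x - u' r x‖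
    rw [hv']
    split_ifs with h1
    · rw [sub_self, norm_zero]; exact norm_nonneg _
    · push Not at h1
      have h2 : 0 < ‖v r x‖ := lt_of_le_of_lt (norm_nonneg _) h1
      have h3 : v r x - ((‖u' r x‖ / ‖v r x‖ : ℝ) : ℂ) * v r x =
          ((1 - ‖u' r x‖ / ‖v r x‖ : ℝ) : ℂ) * v r x := by
        push_cast; ring
      have h4 : 0 ≤ 1 - ‖u' r x‖ / ‖v r x‖ := by
        rw [sub_nonneg, div_le_one h2]; exact h1.le
      rw [h3, norm_mul, Complex.norm_real, Real.norm_eq_abs, abs_of_nonneg h4, sub_mul, one_mul,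
        div_mul_cancel₀ _ h2.ne']
      have h5 := norm_sub_norm_le (u r x) (u' r x)
      have h6 := h r x
      linarith

/-- absolute values. -/
lemma exists_abs {u : BB G} (hu : Loc c u) : ∃ v : BB G, Loc c v ∧ ∀ r x, v r x = (‖u r x‖ : ℝ) := by
  obtain ⟨v, hv⟩ := exists_dom u (fun r x => ((‖u r x‖ : ℝ) : ℂ)) (fun r x => by simp)
  refine ⟨v, hu.of_le c fun r x => ?_, hv⟩
  rw [hv]
  simp

/-- a sequence dominated by a concentrated one. -/
lemma exists_loc {u : BB G} (hu : Loc c u) (w : ℕ → XX G → ℂ) (h : ∀ r x, ‖w r x‖ ≤ ‖u r x‖) :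
    ∃ v : BB G, Loc c v ∧ ∀ r x, v r x = w r x := by
  obtain ⟨v, hv⟩ := exists_dom u w h
  exact ⟨v, hu.of_le c fun r x => by rw [hv]; exact h r x, hv⟩

end Pool.Agent.LibQM51
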