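import Pool.Agent.LibQM51.Van

/-!
The cohomology of the asymptotic module vanishes in degrees at most two.
-/

set_option autoImplicit false

namespace Pool.Agent.LibQM51

open Pool.Agent.LibZIS Pool.Agent.LibCod83 Filter Topology

universe v

variable {G ι : Type} [Group G] {c : SH G ι}

variable {E : Type v} [TopologicalSpace E] [PathConnectedSpace E]
  [MulAction G E] [ContinuousConstSMul G E]

lemma mk_eq_iff (u u' : ZS c) : mk c u = mk c u' ↔
    DN c (fun r x => ((u.1 r x : ℤ) : ℝ) - ((u'.1 r x : ℤ) : ℝ)) := by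
  have h1 : mk c u = mk c u' ↔ mk c (u - u') = 0 := by
    rw [← sub_eq_zero]
    exact Iff.rfl
  rw [h1, mk_eq_zero_iff_dn]
  have h2 : (fun r x => (((u - u').1 r x : ℤ) : ℝ)) =
      fun r x => ((u.1 r x : ℤ) : ℝ) - ((u'.1 r x : ℤ) : ℝ) := by
    funext r x
    have h3 : (u - u').1 r x = u.1 r x - u'.1 r x := rfl
    rw [h3]
    push_cast
    rfl
  rw [h2]

lemma LtZ_val (g : G) (u : ZS c) (r : ℕ) (x : XX G) : (LtZ c g u).1 r x = u.1 r (g⁻¹ • x) := by
  rw [LtZ_apply, Lt_apply]

omit [PathConnectedSpace E] in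
/-- degree zero. -/
theorem coh0 (x0 : E) (h0 : ¬ Nontrivial (Hgy (lam G) E 0)) :
    ¬ Nontrivial (groupCohomology (RM c) 0) := by
  rw [not_nontrivial_iff_subsingleton]
  have key : ∀ x : groupCohomology (RM c) 0, x = 0 := by
    intro x
    refine groupCohomology.H0_induction_on (RM c) (C := fun x => x = 0) x fun v => ?_
    have hv : v = 0 := by
      apply Subtype.ext
      obtain ⟨u, hu⟩ := mk_surj c v.1
      have h1 : ∀ g : G, repM c g v.1 = v.1 := v.2
      show (v.1 : MM c) = 0
      rw [← hu, mk_eq_zero_iff_dn]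
      refine van0 x0 h0 u fun g => ?_
      have h2 := h1 g
      rw [← hu, repM_mk, mk_eq_iff] at h2
      simpa only [LtZ_val] using h2
    rw [hv, map_zero]
  exact ⟨fun a b => by rw [key a, key b]⟩

/-- degree one. -/
theorem coh1 (hfree : ∀ (g : G) (e : E), g • e = e → g = 1)
    (h0 : ¬ Nontrivial (Hgy (lam G) E 0)) (h1 : ¬ Nontrivial (Hgy (lam G) E 1)) :
    ¬ Nontrivial (groupCohomology (RM c) 1) := by
  rw [not_nontrivial_iff_subsingleton]
  have key : ∀ x : groupCohomology (RM c) 1, x = 0 := by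
    intro x
    refine groupCohomology.H1_induction_on (A := RM c) (C := fun x => x = 0) x fun f => ?_
    rw [groupCohomology.H1π_eq_zero_iff]
    have hf : ∀ g h : G, f.1 (g * h) = repM c g (f.1 h) + f.1 g :=
      (groupCohomology.mem_cocycles₁_iff f.1).1 f.2
    choose u hu using fun g => mk_surj c (f.1 g)
    obtain ⟨m, hm⟩ := van1 hfree h0 h1 u (fun g h => by
      have h2 := hf g h
      rw [← hu, ← hu, ← hu, repM_mk] at h2
      have h3 : mk c (u (g * h)) = mk c (LtZ c g (u h) + u g) := h2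
      rw [mk_eq_iff] at h3
      refine h3.of_le 1 fun r x => ?_
      have h4 : (LtZ c g (u h) + u g).1 r x = (u h).1 r (g⁻¹ • x) + (u g).1 r x := by
        rw [← LtZ_val]
        rfl
      rw [one_mul, h4]
      refine le_of_eq (congrArg norm ?_)
      push_cast
      ring)
    refine ⟨mk c m, ?_⟩
    funext g
    show repM c g (mk c m) - mk c m = f.1 g
    rw [← hu, repM_mk]
    have h5 : mk c (LtZ c g m) - mk c m = mk c (LtZ c g m - m) := rfl
    rw [h5]
    refine Eq.symm ?_
    rw [mk_eq_iff]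
    refine (hm g).of_le 1 fun r x => ?_
    have h4 : (LtZ c g m - m).1 r x = m.1 r (g⁻¹ • x) - m.1 r x := by
      rw [← LtZ_val]
      rfl
    rw [one_mul, h4]
    refine le_of_eq (congrArg norm ?_)
    push_cast
    ring
  exact ⟨fun a b => by rw [key a, key b]⟩

/-- degree two. -/
theorem coh2 (hfree : ∀ (g : G) (e : E), g • e = e → g = 1) (hE : H1Zero E)
    (h0 : ¬ Nontrivial (Hgy (lam G) E 0)) (h1 : ¬ Nontrivial (Hgy (lam G) E 1))
    (h2 : ¬ Nontrivial (Hgy (lam G) E 2)) :
    ¬ Nontrivial (groupCohomology (RM c) 2) := by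
  rw [not_nontrivial_iff_subsingleton]
  have key : ∀ x : groupCohomology (RM c) 2, x = 0 := by
    intro x
    refine groupCohomology.H2_induction_on (A := RM c) (C := fun x => x = 0) x fun f => ?_
    rw [groupCohomology.H2π_eq_zero_iff]
    have hf : ∀ g h k : G, repM c g (f.1 (h, k)) - f.1 (g * h, k) + f.1 (g, h * k) -
      f.1 (g, h) = 0 := (groupCohomology.mem_cocycles₂_def f.1).1 f.2
    choose u hu using fun g h => mk_surj c (f.1 (g, h))
    obtain ⟨m, hm⟩ := van2 hfree hE h0 h1 h2 u (fun g h k => by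
      have h3 := hf g h k
      rw [← hu, ← hu, ← hu, ← hu, repM_mk] at h3
      have h4 : mk c (LtZ c g (u h k) - u (g * h) k + u g (h * k) - u g h) = 0 := h3
      rw [mk_eq_zero_iff_dn] at h4
      refine h4.of_le 1 fun r x => ?_
      have h5 : (LtZ c g (u h k) - u (g * h) k + u g (h * k) - u g h).1 r x =
          (u h k).1 r (g⁻¹ • x) - (u (g * h) k).1 r x + (u g (h * k)).1 r x -
            (u g h).1 r x := by
        rw [← LtZ_val]
        rfl
      rw [one_mul, h5]
      refine le_of_eq (congrArg norm ?_)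
      push_cast
      ring)
    refine ⟨fun g => mk c (m g), ?_⟩
    funext ⟨g, h⟩
    show repM c g (mk c (m h)) - mk c (m (g * h)) + mk c (m g) = f.1 (g, h)
    rw [← hu, repM_mk]
    have h5 : mk c (LtZ c g (m h)) - mk c (m (g * h)) + mk c (m g) =
      mk c (LtZ c g (m h) - m (g * h) + m g) := rfl
    rw [h5]
    refine Eq.symm ?_
    rw [mk_eq_iff]
    refine (hm g h).of_le 1 fun r x => ?_
    have h4 : (LtZ c g (m h) - m (g * h) + m g).1 r x =
        (m h).1 r (g⁻¹ • x) - (m (g * h)).1 r x + (m g).1 r x := by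
      rw [← LtZ_val]
      rfl
    rw [one_mul, h4]
    refine le_of_eq (congrArg norm ?_)
    push_cast
    ring
  exact ⟨fun a b => by rw [key a, key b]⟩

/-- degrees at most two. -/
theorem coh (hfree : ∀ (g : G) (e : E), g • e = e → g = 1) (hE : H1Zero E)
    (k : ℕ) (hk : k ≤ 2) (h : ∀ i, i ≤ k → ¬ Nontrivial (Hgy (lam G) E i)) :
    ¬ Nontrivial (groupCohomology (RM c) k) := by
  obtain ⟨x0⟩ : Nonempty E := inferInstance
  interval_cases k
  · exact coh0 x0 (h 0 le_rfl)
  · exact coh1 hfree (h 0 (by norm_num)) (h 1 le_rfl)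
  · exact coh2 hfree hE (h 0 (by norm_num)) (h 1 (by norm_num)) (h 2 le_rfl)

end Pool.Agent.LibQM51
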