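import Pool.Agent.LibCod83.Twist

/-!
Representations on Banach spaces which are weakly contained in the regular one extend to the
reduced group C*-algebra.
-/

set_option autoImplicit false

namespace Pool.Agent.LibQM51

open Pool.Agent.LibZIS

universe u w

variable {G : Type u} [Group G] {W : Type w} [NormedAddCommGroup W] [NormedSpace ℂ W]
  (ρ : G →* (W →L[ℂ] W))

/-- the representation of the group algebra. -/
noncomputable def TW : MonoidAlgebra ℂ G →ₐ[ℂ] (W →L[ℂ] W) :=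
  MonoidAlgebra.lift ℂ _ G ρ

lemma TW_apply (f : MonoidAlgebra ℂ G) (ξ : W) :
    TW ρ f ξ = ∑ g ∈ f.coeff.support, f.coeff g • ρ g ξ := by
  rw [TW, MonoidAlgebra.lift_apply, Finsupp.sum, sum_apply]
  rfl

/-- the closure of the image of the group algebra in the two operator algebras. -/
noncomputable def gr : Subalgebra ℂ ((Raw.L2 G →L[ℂ] Raw.L2 G) × (W →L[ℂ] W)) :=
  ((Raw.T G G).prod (TW ρ)).range.topologicalClosure

variable {ρ} (hρ : ∀ f : MonoidAlgebra ℂ G, ‖TW ρ f‖ ≤ ‖Raw.T G G f‖)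
include hρ

lemma gr_norm_le {p : (Raw.L2 G →L[ℂ] Raw.L2 G) × (W →L[ℂ] W)} (hp : p ∈ gr ρ) :
    ‖p.2‖ ≤ ‖p.1‖ := by
  have h1 : IsClosed {p : (Raw.L2 G →L[ℂ] Raw.L2 G) × (W →L[ℂ] W) |
      ‖p.2‖ ≤ ‖p.1‖} := isClosed_le continuous_snd.norm continuous_fst.norm
  have h2 : closure (((Raw.T G G).prod (TW ρ)).range :
      Set ((Raw.L2 G →L[ℂ] Raw.L2 G) × (W →L[ℂ] W))) ⊆ {p | ‖p.2‖ ≤ ‖p.1‖} := by
    refine closure_minimal ?_ h1
    rintro _ ⟨f, rfl⟩
    exact hρ f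
  exact h2 hp

lemma gr_unique {a : Raw.L2 G →L[ℂ] Raw.L2 G} {b b' : W →L[ℂ] W} (h : (a, b) ∈ gr ρ)
    (h' : (a, b') ∈ gr ρ) : b = b' := by
  have h1 := gr_norm_le hρ (Subalgebra.sub_mem _ h h')
  have h2 : ‖b - b'‖ ≤ ‖a - a‖ := h1
  rw [sub_self, norm_zero] at h2
  exact sub_eq_zero.1 (norm_le_zero_iff.1 h2)

omit hρ in
lemma gr_rho (g : G) : ((Raw.tr g : Raw.L2 G →L[ℂ] Raw.L2 G), ρ g) ∈ gr ρ := by
  refine subset_closure ⟨MonoidAlgebra.single g 1, ?_⟩
  show (Raw.T G G _, TW ρ _) = _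
  rw [Raw.T, TW, MonoidAlgebra.lift_single, MonoidAlgebra.lift_single, one_smul, one_smul]
  rfl

lemma gr_exists [CompleteSpace W]
    {a : Raw.L2 G →L[ℂ] Raw.L2 G} (ha : a ∈ Raw.crAlg G) :
    ∃ b : W →L[ℂ] W, (a, b) ∈ gr ρ := by
  have h1 : Algebra.adjoin ℂ (Set.range (Raw.tr : G → (Raw.L2 G →L[ℂ] Raw.L2 G))) ≤
      (Raw.T G G).range := by
    refine Algebra.adjoin_le ?_
    rintro _ ⟨g, rfl⟩
    refine ⟨MonoidAlgebra.single g 1, ?_⟩
    show Raw.T G G _ = _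
    rw [Raw.T, MonoidAlgebra.lift_single, one_smul]
    rfl
  have h2 : a ∈ closure ((Raw.T G G).range : Set (Raw.L2 G →L[ℂ] Raw.L2 G)) := closure_mono h1 ha
  obtain ⟨u, hu, hlim⟩ := mem_closure_iff_seq_limit.1 h2
  choose f hf using hu
  have hf' : ∀ n, Raw.T G G (f n) = u n := hf
  have hcau : CauchySeq fun n => TW ρ (f n) := by
    have h3 := hlim.cauchySeq
    rw [Metric.cauchySeq_iff] at h3 ⊢
    intro ε hε
    obtain ⟨N, hN⟩ := h3 ε hε
    refine ⟨N, fun m hm n hn => lt_of_le_of_lt ?_ (hN m hm n hn)⟩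
    rw [dist_eq_norm, dist_eq_norm, ← hf', ← hf', ← map_sub, ← map_sub]
    exact hρ _
  obtain ⟨b, hb⟩ := cauchySeq_tendsto_of_complete hcau
  refine ⟨b, mem_closure_of_tendsto (hlim.prodMk_nhds hb) (Filter.Eventually.of_forall fun n => ?_)⟩
  refine ⟨f n, ?_⟩
  show (Raw.T G G (f n), TW ρ (f n)) = _
  rw [hf']

/-- the reduced group C*-algebra acts. -/
theorem exists_ext [CompleteSpace W] : ∃ R : Cr G →+* (W →L[ℂ] W), ∀ g : G, R (lam G g) = ρ g := by
  let R₀ : Raw.Cr G →+* (W →L[ℂ] W) :=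
    { toFun := fun a => (gr_exists hρ a.2).choose
      map_one' := gr_unique hρ (gr_exists hρ (1 : Raw.Cr G).2).choose_spec
        (Subalgebra.one_mem (gr ρ))
      map_zero' := gr_unique hρ (gr_exists hρ (0 : Raw.Cr G).2).choose_spec
        (Subalgebra.zero_mem (gr ρ))
      map_mul' := fun a b => gr_unique hρ (gr_exists hρ (a * b).2).choose_spec
        (Subalgebra.mul_mem (gr ρ) (gr_exists hρ a.2).choose_spec
          (gr_exists hρ b.2).choose_spec)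
      map_add' := fun a b => gr_unique hρ (gr_exists hρ (a + b).2).choose_spec
        (Subalgebra.add_mem (gr ρ) (gr_exists hρ a.2).choose_spec
          (gr_exists hρ b.2).choose_spec) }
  refine ⟨R₀.comp (toRaw G), fun g => ?_⟩
  show R₀ (toRaw G (lam G g)) = _
  rw [toRaw_lam]
  exact gr_unique hρ (gr_exists hρ (Raw.lam G g).2).choose_spec (gr_rho g)

omit hρ in
/-- the reduced group C*-algebra acts, form with pointwise bounds. -/
theorem exists_ext' [CompleteSpace W]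
    (h : ∀ (f : MonoidAlgebra ℂ G) (v : W), ‖TW ρ f v‖ ≤ ‖Raw.T G G f‖ * ‖v‖) :
    ∃ R : Cr G →+* (W →L[ℂ] W), ∀ g : G, R (lam G g) = ρ g :=
  exists_ext fun f => (TW ρ f).opNorm_le_bound (norm_nonneg _) (h f)

end Pool.Agent.LibQM51
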