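import Pool.Agent.LibQM51.Op
import Pool.Agent.LibQM51.Ext

/-!
The twisted representation on the asymptotic space is weakly contained in the regular one.
-/

set_option autoImplicit false

namespace Pool.Agent.LibQM51

open Pool.Agent.LibZIS Pool.Agent.LibCod83 Filter Topology

/-! ### the product with the group acting on the first factor -/

/-- the product. -/
def PX (G ι : Type) : Type := XX G × ι

variable {G ι : Type} [Group G]

instance : MulAction G (PX G ι) where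
  smul g p := (g • p.1, p.2)
  one_smul p := by
    show ((1 : G) • p.1, p.2) = p
    rw [one_smul]
    rfl
  mul_smul g h p := by
    show ((g * h) • p.1, p.2) = (g • (h • p.1), p.2)
    rw [mul_smul]

lemma amenable_PX (p : PX G ι) : Amenable (MulAction.stabilizer G p) := by
  have h : Finite (MulAction.stabilizer G p) := by
    have h1 : Subsingleton (MulAction.stabilizer G p) := by
      refine ⟨fun a b => Subtype.ext ?_⟩
      have ha : (a : G) • p = p := a.2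
      have hb : (b : G) • p = p := b.2
      have ha' : (a : G) * p.1.1 = p.1.1 := congrArg (fun q => (Prod.fst q).1) ha
      have hb' : (b : G) * p.1.1 = p.1.1 := congrArg (fun q => (Prod.fst q).1) hb
      exact mul_right_cancel (ha'.trans hb'.symm)
    infer_instance
  exact amenable_of_finite _

omit [Group G] in
lemma pr_summable (u : XX G → ℂ) (ζ : XX G → Raw.L2 ι)
    (h : Summable fun x => ‖u x‖ ^ 2 * ‖ζ x‖ ^ 2) :
    Summable fun p : XX G × ι => ‖u p.1 * ζ p.1 p.2‖ ^ 2 := by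
  have e : ∀ x, ∑' q, ‖u x * ζ x q‖ ^ 2 = ‖u x‖ ^ 2 * ‖ζ x‖ ^ 2 := by
    intro x
    rw [Raw.norm_sq_eq, ← tsum_mul_left]
    exact tsum_congr fun q => by rw [norm_mul, mul_pow]
  refine (summable_prod_of_nonneg fun p => by positivity).2 ⟨fun x => ?_, ?_⟩
  · have h1 := (Raw.summable_sq (ζ x)).mul_left (‖u x‖ ^ 2)
    exact h1.congr fun q => by rw [norm_mul, mul_pow]
  · exact h.congr fun x => (e x).symm

/-- a product function. -/
noncomputable def pr (u : XX G → ℂ) (ζ : XX G → Raw.L2 ι)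
    (h : Summable fun x => ‖u x‖ ^ 2 * ‖ζ x‖ ^ 2) : Raw.L2 (PX G ι) :=
  ⟨fun p => u p.1 * ζ p.1 p.2, memℓp_gen (by
    have h2 : Summable fun p : PX G ι => ‖u p.1 * ζ p.1 p.2‖ ^ 2 := pr_summable u ζ h
    simpa using h2)⟩

omit [Group G] in
lemma pr_apply (u : XX G → ℂ) (ζ : XX G → Raw.L2 ι) (h : Summable fun x => ‖u x‖ ^ 2 * ‖ζ x‖ ^ 2)
    (p : PX G ι) : pr u ζ h p = u p.1 * ζ p.1 p.2 := rfl

omit [Group G] in
lemma norm_pr_sq (u : XX G → ℂ) (ζ : XX G → Raw.L2 ι)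
    (h : Summable fun x => ‖u x‖ ^ 2 * ‖ζ x‖ ^ 2) :
    ‖pr u ζ h‖ ^ 2 = ∑' x, ‖u x‖ ^ 2 * ‖ζ x‖ ^ 2 := by
  have e : ∀ x, ∑' q, ‖u x * ζ x q‖ ^ 2 = ‖u x‖ ^ 2 * ‖ζ x‖ ^ 2 := by
    intro x
    rw [Raw.norm_sq_eq, ← tsum_mul_left]
    exact tsum_congr fun q => by rw [norm_mul, mul_pow]
  have h1 : ‖pr u ζ h‖ ^ 2 = ∑' p : XX G × ι, ‖u p.1 * ζ p.1 p.2‖ ^ 2 := Raw.norm_sq_eq (pr u ζ h)
  rw [h1, (pr_summable u ζ h).tsum_prod]
  exact tsum_congr e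

omit [Group G] in
lemma wl_summable (ξ : XX G → Raw.L2 ι) (hξ : ∀ x, ‖ξ x‖ ≤ 1) (u : Raw.L2 (XX G)) :
    Summable fun x => ‖u x‖ ^ 2 * ‖ξ x‖ ^ 2 := by
  refine Summable.of_nonneg_of_le (fun _ => by positivity) (fun x => ?_) (Raw.summable_sq u)
  have h1 : ‖ξ x‖ ^ 2 ≤ 1 := by
    have := hξ x
    have := norm_nonneg (ξ x)
    nlinarith
  calc ‖u x‖ ^ 2 * ‖ξ x‖ ^ 2 ≤ ‖u x‖ ^ 2 * 1 := by gcongr
    _ = ‖u x‖ ^ 2 := mul_one _

/-- the lift by a field of vectors. -/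
noncomputable def Wl (ξ : XX G → Raw.L2 ι) (hξ : ∀ x, ‖ξ x‖ ≤ 1) :
    Raw.L2 (XX G) →ₗ[ℂ] Raw.L2 (PX G ι) where
  toFun u := pr (fun x => u x) ξ (wl_summable ξ hξ u)
  map_add' u v := by
    ext p
    show (u p.1 + v p.1) * ξ p.1 p.2 = u p.1 * ξ p.1 p.2 + v p.1 * ξ p.1 p.2
    ring
  map_smul' z u := by
    ext p
    show (z * u p.1) * ξ p.1 p.2 = z * (u p.1 * ξ p.1 p.2)
    ring

omit [Group G] in
lemma Wl_apply (ξ : XX G → Raw.L2 ι) (hξ : ∀ x, ‖ξ x‖ ≤ 1) (u : Raw.L2 (XX G)) (p : PX G ι) :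
    Wl ξ hξ u p = u p.1 * ξ p.1 p.2 := rfl

omit [Group G] in
lemma norm_Wl (ξ : XX G → Raw.L2 ι) (hξ : ∀ x, ‖ξ x‖ ≤ 1) (u : Raw.L2 (XX G))
    (hu : ∀ x, u x ≠ 0 → ‖ξ x‖ = 1) : ‖Wl ξ hξ u‖ = ‖u‖ := by
  have h1 : ‖Wl ξ hξ u‖ ^ 2 = ‖u‖ ^ 2 := by
    have h2 : ‖Wl ξ hξ u‖ ^ 2 = ∑' x, ‖u x‖ ^ 2 * ‖ξ x‖ ^ 2 :=
      norm_pr_sq _ _ (wl_summable ξ hξ u)
    rw [h2, Raw.norm_sq_eq]
    refine tsum_congr fun x => ?_
    by_cases h : u x = 0
    · rw [h, norm_zero]; ring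
    · rw [hu x h]; ring
  exact (sq_eq_sq₀ (norm_nonneg _) (norm_nonneg _)).1 h1

variable {c : SH G ι} (s : ACoc c)

/-- the defect of the lift. -/
lemma norm_defect_le (ξ : XX G → Raw.L2 ι) (hξ : ∀ x, ‖ξ x‖ ≤ 1) (u : Raw.L2 (XX G)) (g : G)
    (r : ℕ) {t : ℝ} (ht : 0 ≤ t) (F : XX G → ℝ) (hF : Summable F) (hFt : ∑' x, F x ≤ t ^ 2)
    (h : ∀ x, ‖u (g⁻¹ • x)‖ ^ 2 * ‖s.σ g r x • ξ x - ξ (g⁻¹ • x)‖ ^ 2 ≤ F x) :
    ‖Wl ξ hξ (opL s g r u) - Raw.tr g (Wl ξ hξ u)‖ ≤ t := by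
  have hs : Summable fun x => ‖u (g⁻¹ • x)‖ ^ 2 * ‖s.σ g r x • ξ x - ξ (g⁻¹ • x)‖ ^ 2 :=
    Summable.of_nonneg_of_le (fun _ => by positivity) h hF
  have h1 : Wl ξ hξ (opL s g r u) - Raw.tr g (Wl ξ hξ u) =
      pr (fun x => u (g⁻¹ • x)) (fun x => s.σ g r x • ξ x - ξ (g⁻¹ • x)) hs := by
    ext p
    show (s.σ g r p.1 * u (g⁻¹ • p.1)) * ξ p.1 p.2 - u (g⁻¹ • p.1) * ξ (g⁻¹ • p.1) p.2 =
      u (g⁻¹ • p.1) * (s.σ g r p.1 * ξ p.1 p.2 - ξ (g⁻¹ • p.1) p.2)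
    ring
  refine le_of_sq_le_sq ?_ ht
  rw [h1, norm_pr_sq]
  exact (hs.tsum_le_tsum h hF).trans hFt

/-- the inequality with a field of vectors. -/
lemma norm_core (φ : MonoidAlgebra ℂ G) (r : ℕ) (u : Raw.L2 (XX G)) (ξ : XX G → Raw.L2 ι)
    (hξ : ∀ x, ‖ξ x‖ ≤ 1) (hu : ∀ x, u x ≠ 0 → ‖ξ x‖ = 1)
    (hP : ∀ g ∈ φ.coeff.support, ∀ x, u (g⁻¹ • x) ≠ 0 → ‖ξ x‖ = 1) (t : ℝ)
    (ht : ∀ g ∈ φ.coeff.support, ‖Wl ξ hξ (opL s g r u) - Raw.tr g (Wl ξ hξ u)‖ ≤ t) :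
    ‖∑ g ∈ φ.coeff.support, φ.coeff g • opL s g r u‖ ≤
      ‖Raw.T G G φ‖ * ‖u‖ + (∑ g ∈ φ.coeff.support, ‖φ.coeff g‖) * t := by
  set P : Raw.L2 (XX G) := ∑ g ∈ φ.coeff.support, φ.coeff g • opL s g r u with hPdef
  have h1 : ‖Wl ξ hξ P‖ = ‖P‖ := by
    refine norm_Wl ξ hξ P fun x hx => ?_
    have h2 : P x = ∑ g ∈ φ.coeff.support, φ.coeff g * (s.σ g r x * u (g⁻¹ • x)) := by
      have h3 : ((∑ g ∈ φ.coeff.support, φ.coeff g • opL s g r u : Raw.L2 (XX G)) :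
          ∀ _ : XX G, ℂ) =
          ∑ g ∈ φ.coeff.support, ((φ.coeff g • opL s g r u : Raw.L2 (XX G)) : ∀ _ : XX G, ℂ) :=
        map_sum (lp.coeFnAddMonoidHom (fun _ : XX G => ℂ) 2) _ _
      rw [hPdef, h3, Finset.sum_apply]
      rfl
    rw [h2] at hx
    obtain ⟨g, hg, hgx⟩ := Finset.exists_ne_zero_of_sum_ne_zero hx
    exact hP g hg x (right_ne_zero_of_mul (right_ne_zero_of_mul hgx))
  have h2 : Wl ξ hξ P - Raw.T G (PX G ι) φ (Wl ξ hξ u) =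
      ∑ g ∈ φ.coeff.support, φ.coeff g • (Wl ξ hξ (opL s g r u) - Raw.tr g (Wl ξ hξ u)) := by
    rw [Raw.T_apply, hPdef, map_sum, ← Finset.sum_sub_distrib]
    refine Finset.sum_congr rfl fun g _ => ?_
    rw [map_smul, smul_sub]
  have h3 : ‖Wl ξ hξ P - Raw.T G (PX G ι) φ (Wl ξ hξ u)‖ ≤
      (∑ g ∈ φ.coeff.support, ‖φ.coeff g‖) * t := by
    rw [h2, Finset.sum_mul]
    refine (norm_sum_le _ _).trans (Finset.sum_le_sum fun g hg => ?_)
    rw [norm_smul]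
    exact mul_le_mul_of_nonneg_left (ht g hg) (norm_nonneg _)
  have h4 : ‖Raw.T G (PX G ι) φ (Wl ξ hξ u)‖ ≤ ‖Raw.T G G φ‖ * ‖u‖ := by
    refine (ContinuousLinearMap.le_opNorm _ _).trans ?_
    rw [norm_Wl ξ hξ u hu]
    exact mul_le_mul_of_nonneg_right (Raw.norm_T_le amenable_PX φ) (norm_nonneg _)
  have h5 : Wl ξ hξ P = Raw.T G (PX G ι) φ (Wl ξ hξ u) +
    (Wl ξ hξ P - Raw.T G (PX G ι) φ (Wl ξ hξ u)) := by abel
  rw [← h1, h5]
  exact (norm_add_le _ _).trans (add_le_add h4 h3)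

/-! ### the field of vectors -/

section field

variable (c)

open Classical in
/-- the coarse inverse. -/
noncomputable def rh [Nonempty ι] (K : Finset G) (r : ℕ) (x : XX G) : ι :=
  if h : ∃ p : ι, p ∈ c.D r ∧ ∃ k ∈ K, x = (k * (c.f r p)⁻¹, c.lab r p) then h.choose
    else Classical.arbitrary ι

lemma rh_spec [Nonempty ι] (K : Finset G) {r : ℕ} {x : XX G} (hx : x ∈ KS c K r) :
    rh c K r x ∈ c.D r ∧ ∃ k ∈ K, x = (k * (c.f r (rh c K r x))⁻¹, c.lab r (rh c K r x)) := by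
  classical
  obtain ⟨k, hk, p, hp, e⟩ := hx
  have h : ∃ p : ι, p ∈ c.D r ∧ ∃ k ∈ K, x = (k * (c.f r p)⁻¹, c.lab r p) := ⟨p, hp, k, hk, e⟩
  rw [rh, dif_pos h]
  exact h.choose_spec

open Classical in
/-- the quotients which occur. -/
noncomputable def qq (K : Finset G) (g : G) : Finset G :=
  (K ×ˢ K).image fun k => k.1⁻¹ * g * k.2

/-- neighbours. -/
lemma rh_near [Nonempty ι] (K : Finset G) (g : G) {r : ℕ} {x : XX G} (hx : x ∈ KS c K r)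
    (hy : g⁻¹ • x ∈ KS c K r) : c.lab r (rh c K r x) = c.lab r (rh c K r (g⁻¹ • x)) ∧
      (c.f r (rh c K r x))⁻¹ * c.f r (rh c K r (g⁻¹ • x)) ∈ qq K g := by
  classical
  obtain ⟨hp, k, hk, e⟩ := rh_spec c K hx
  obtain ⟨hq, l, hl, e'⟩ := rh_spec c K hy
  set p := rh c K r x with hpdef
  set q := rh c K r (g⁻¹ • x) with hqdef
  have h1 : g⁻¹ • x = (g⁻¹ * (k * (c.f r p)⁻¹), c.lab r p) := by
    rw [e, smul_XX]
  rw [h1] at e'
  have h2 : g⁻¹ * (k * (c.f r p)⁻¹) = l * (c.f r q)⁻¹ := congrArg Prod.fst e'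
  have h3 : c.lab r p = c.lab r q := congrArg Prod.snd e'
  refine ⟨h3, ?_⟩
  rw [qq, Finset.mem_image]
  refine ⟨(k, l), Finset.mk_mem_product hk hl, ?_⟩
  show k⁻¹ * g * l = _
  have h4 : l = g⁻¹ * (k * (c.f r p)⁻¹) * c.f r q := by rw [h2]; group
  rw [h4]
  group

open Classical in
/-- the piece around a point. -/
noncomputable def pc [Nonempty ι] (K : Finset G) (r : ℕ) (E : Setoid ι) (x : XX G) : Finset ι :=
  (c.D r).filter fun q => E (rh c K r x) q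

lemma mem_pc [Nonempty ι] (K : Finset G) (r : ℕ) (E : Setoid ι) (x : XX G) (q : ι) :
    q ∈ pc c K r E x ↔ q ∈ c.D r ∧ E (rh c K r x) q := by
  classical
  rw [pc, Finset.mem_filter]

lemma pc_nonempty [Nonempty ι] (K : Finset G) (r : ℕ) (E : Setoid ι) {x : XX G}
    (hx : x ∈ KS c K r) : (pc c K r E x).Nonempty :=
  ⟨rh c K r x, (mem_pc c K r E x _).2 ⟨(rh_spec c K hx).1, E.refl _⟩⟩

lemma pc_congr [Nonempty ι] (K : Finset G) (r : ℕ) (E : Setoid ι) {x y : XX G}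
    (h : E (rh c K r x) (rh c K r y)) : pc c K r E x = pc c K r E y := by
  ext q
  rw [mem_pc, mem_pc]
  exact and_congr_right fun _ => ⟨fun h1 => E.trans (E.symm h) h1, fun h1 => E.trans h h1⟩

open Classical in
/-- products. -/
noncomputable def hh (K N : Finset G) : Finset G := (K ×ˢ N).image fun k => k.1 * k.2

/-- the neighbours. -/
lemma mem_hh [Nonempty ι] (K N : Finset G) {r : ℕ} (E : Setoid ι)
    (hE : ∀ x ∈ c.D r, ∀ y ∈ c.D r, E x y → c.lab r x = c.lab r y ∧ (c.f r x)⁻¹ * c.f r y ∈ N)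
    {x : XX G} (hx : x ∈ KS c K r) {q : ι} (hq : q ∈ pc c K r E x) :
    x.1 * c.f r q ∈ hh K N := by
  classical
  obtain ⟨hp, k, hk, e⟩ := rh_spec c K hx
  rw [mem_pc] at hq
  rw [hh, Finset.mem_image]
  refine ⟨(k, (c.f r (rh c K r x))⁻¹ * c.f r q),
    Finset.mk_mem_product hk (hE _ hp _ hq.1 hq.2).2, ?_⟩
  show k * ((c.f r (rh c K r x))⁻¹ * c.f r q) = _
  have h1 : x.1 = k * (c.f r (rh c K r x))⁻¹ := congrArg Prod.fst e
  rw [h1, mul_assoc]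

end field

section vec

variable [Nonempty ι] (K : Finset G) (r : ℕ) (E : Setoid ι)

open Classical in
/-- the field of vectors. -/
noncomputable def vf (x : XX G) : Raw.L2 ι :=
  if x ∈ KS c K r then ∑ q ∈ pc c K r E x, lp.single 2 q
    ((((√((pc c K r E x).card : ℝ))⁻¹ : ℝ) : ℂ) *
      (starRingEnd ℂ) (s.σ (x.1 * c.f r q) r x)) else 0

lemma vf_apply (x : XX G) (hx : x ∈ KS c K r) (q : ι) : vf s K r E x q =
    open Classical in if q ∈ pc c K r E x then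
      (((√((pc c K r E x).card : ℝ))⁻¹ : ℝ) : ℂ) *
        (starRingEnd ℂ) (s.σ (x.1 * c.f r q) r x) else 0 := by
  classical
  rw [vf, if_pos hx, Raw.lpsum_apply]

omit [Nonempty ι] in
lemma norm_term (n : ℕ) (g : G) (x : XX G) :
    ‖(((√(n : ℝ))⁻¹ : ℝ) : ℂ) * (starRingEnd ℂ) (s.σ g r x)‖ ^ 2 = (n : ℝ)⁻¹ := by
  rw [norm_mul, RCLike.norm_conj, s.norm, mul_one, Complex.norm_real, Real.norm_eq_abs, sq_abs,
    inv_pow, Real.sq_sqrt (Nat.cast_nonneg _)]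

lemma norm_vf (x : XX G) (hx : x ∈ KS c K r) : ‖vf s K r E x‖ = 1 := by
  classical
  have h1 : ‖vf s K r E x‖ ^ 2 = 1 := by
    rw [vf, if_pos hx, Raw.norm_lpsum_sq]
    simp only [norm_term]
    rw [Finset.sum_const, nsmul_eq_mul]
    exact mul_inv_cancel₀ (Nat.cast_ne_zero.2 (Finset.card_ne_zero.2 (pc_nonempty c K r E hx)))
  have h2 := norm_nonneg (vf s K r E x)
  nlinarith

lemma norm_vf_le (x : XX G) : ‖vf s K r E x‖ ≤ 1 := by
  classical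
  by_cases hx : x ∈ KS c K r
  · exact (norm_vf s K r E x hx).le
  · rw [vf, if_neg hx, norm_zero]
    exact zero_le_one

/-- equivariance of the field up to the error of the cocycle. -/
lemma norm_vf_sub (g : G) (x : XX G) (hx : x ∈ KS c K r) (hy : g⁻¹ • x ∈ KS c K r)
    (N : Finset G)
    (hE : ∀ x ∈ c.D r, ∀ y ∈ c.D r, E x y → c.lab r x = c.lab r y ∧ (c.f r x)⁻¹ * c.f r y ∈ N)
    (hxy : E (rh c K r x) (rh c K r (g⁻¹ • x))) :
    ‖s.σ g r x • vf s K r E x - vf s K r E (g⁻¹ • x)‖ ^ 2 ≤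
      ∑ h ∈ hh K N, c.a r * ‖s.δ g h r x‖ ^ 2 := by
  classical
  set y := g⁻¹ • x with hydef
  set Q := pc c K r E x with hQ
  have hQy : pc c K r E y = Q := (pc_congr c K r E hxy).symm
  set κ : ℝ := (Q.card : ℝ)⁻¹ with hκ
  have hQ0 : (0 : ℝ) < Q.card := by exact_mod_cast Finset.card_pos.2 (pc_nonempty c K r E hx)
  have hκ0 : 0 ≤ κ := by positivity
  set D : Raw.L2 ι := s.σ g r x • vf s K r E x - vf s K r E y with hD
  have hDq : ∀ q, D q = s.σ g r x * vf s K r E x q - vf s K r E y q := fun q => rfl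
  set M : ℝ := ∑ h ∈ hh K N, c.a r * ‖s.δ g h r x‖ ^ 2 with hM
  have hzero : ∀ q, q ∉ Q → ‖D q‖ ^ 2 = 0 := by
    intro q hq
    rw [hDq, vf_apply s K r E x hx, vf_apply s K r E y hy, hQy, if_neg hq, if_neg hq]
    simp
  have hterm : ∀ q ∈ Q, ‖D q‖ ^ 2 ≤ κ * M := by
    intro q hq
    rw [hDq, vf_apply s K r E x hx, vf_apply s K r E y hy, hQy, if_pos hq, if_pos hq]
    have e1 : s.σ g r x * ((((√(Q.card : ℝ))⁻¹ : ℝ) : ℂ) *
          (starRingEnd ℂ) (s.σ (x.1 * c.f r q) r x)) -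
        (((√(Q.card : ℝ))⁻¹ : ℝ) : ℂ) * (starRingEnd ℂ) (s.σ (y.1 * c.f r q) r y) =
        (((√(Q.card : ℝ))⁻¹ : ℝ) : ℂ) * (s.σ g r x * (starRingEnd ℂ) (s.σ (x.1 * c.f r q) r x) -
          (starRingEnd ℂ) (s.σ (y.1 * c.f r q) r y)) := by ring
    have e2 : x.1 * c.f r q = g * (y.1 * c.f r q) := by
      have h1 : y.1 = g⁻¹ * x.1 := rfl
      rw [h1]
      group
    set h := y.1 * c.f r q with hh'
    have hhH : h ∈ hh K N := mem_hh c K N E hE hy (by rw [hQy]; exact hq)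
    have e3 : ‖s.σ g r x * (starRingEnd ℂ) (s.σ (x.1 * c.f r q) r x) -
          (starRingEnd ℂ) (s.σ h r y)‖ =
        ‖s.σ (g * h) r x - s.σ g r x * s.σ h r y‖ := by
      rw [e2]
      have n1 : (starRingEnd ℂ) (s.σ (g * h) r x) * s.σ (g * h) r x = 1 := by
        rw [← Complex.normSq_eq_conj_mul_self, Complex.normSq_eq_norm_sq, s.norm]
        simp
      have n2 : (starRingEnd ℂ) (s.σ h r y) * s.σ h r y = 1 := by
        rw [← Complex.normSq_eq_conj_mul_self, Complex.normSq_eq_norm_sq, s.norm]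
        simp
      have e4 : s.σ g r x * (starRingEnd ℂ) (s.σ (g * h) r x) - (starRingEnd ℂ) (s.σ h r y) =
          -((starRingEnd ℂ) (s.σ (g * h) r x) * (starRingEnd ℂ) (s.σ h r y)) *
            (s.σ (g * h) r x - s.σ g r x * s.σ h r y) := by
        linear_combination (-(s.σ g r x * (starRingEnd ℂ) (s.σ (g * h) r x))) * n2 +
          (starRingEnd ℂ) (s.σ h r y) * n1
      rw [e4, norm_mul, norm_neg, norm_mul, RCLike.norm_conj, RCLike.norm_conj, s.norm, s.norm]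
      ring
    rw [e1, norm_mul, mul_pow, e3, Complex.norm_real, Real.norm_eq_abs, sq_abs, inv_pow,
      Real.sq_sqrt hQ0.le]
    have e5 := s.mul g h r x
    have e6 : ‖s.σ (g * h) r x - s.σ g r x * s.σ h r y‖ ^ 2 ≤ c.a r * ‖s.δ g h r x‖ ^ 2 := by
      calc ‖s.σ (g * h) r x - s.σ g r x * s.σ h r y‖ ^ 2 ≤ (√(c.a r) * ‖s.δ g h r x‖) ^ 2 := by
            gcongr
        _ = c.a r * ‖s.δ g h r x‖ ^ 2 := by rw [mul_pow, Real.sq_sqrt (c.pos r).le]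
    have e7 : c.a r * ‖s.δ g h r x‖ ^ 2 ≤ M :=
      Finset.single_le_sum (f := fun h => c.a r * ‖s.δ g h r x‖ ^ 2)
        (fun h _ => mul_nonneg (c.pos r).le (by positivity)) hhH
    exact mul_le_mul_of_nonneg_left (e6.trans e7) hκ0
  have hsum : ‖D‖ ^ 2 = ∑ q ∈ Q, ‖D q‖ ^ 2 := by
    rw [Raw.norm_sq_eq]
    exact tsum_eq_sum hzero
  rw [hsum]
  refine (Finset.sum_le_sum hterm).trans ?_
  rw [Finset.sum_const, nsmul_eq_mul, ← mul_assoc, hκ, mul_inv_cancel₀ hQ0.ne', one_mul]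

/-- the trivial bound. -/
lemma norm_vf_sub_le (g : G) (x : XX G) :
    ‖s.σ g r x • vf s K r E x - vf s K r E (g⁻¹ • x)‖ ^ 2 ≤ 4 := by
  have h1 : ‖s.σ g r x • vf s K r E x - vf s K r E (g⁻¹ • x)‖ ≤ 2 := by
    refine (norm_sub_le _ _).trans ?_
    rw [norm_smul, s.norm, one_mul]
    have h2 := norm_vf_le s K r E x
    have h3 := norm_vf_le s K r E (g⁻¹ • x)
    linarith
  have h4 := norm_nonneg (s.σ g r x • vf s K r E x - vf s K r E (g⁻¹ • x))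
  nlinarith

end vec

end Pool.Agent.LibQM51
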