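import Pool.Agent.LibQM51.Ineq

/-!
The reduced group C*-algebra acts on the asymptotic space through every approximate cocycle.
-/

set_option autoImplicit false

namespace Pool.Agent.LibQM51

open Pool.Agent.LibZIS Pool.Agent.LibCod83 Filter Topology

variable {G ι : Type} [Group G] {c : SH G ι} (s : ACoc c)

/-- the asymptotic inequality for bounded sequences near the image. -/
lemma norm_asym [Nonempty ι] (φ : MonoidAlgebra ℂ G) {K : Finset G} {C : ℝ} {u : BB G}
    (hu : Bd c K C u) {η : ℝ} (hη : 0 < η) :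
    ∀ᶠ r in atTop, ‖∑ g ∈ φ.coeff.support, φ.coeff g • opL s g r (u r)‖ ≤
      ‖Raw.T G G φ‖ * ‖u r‖ + η := by
  classical
  set S := φ.coeff.support with hS
  -- the region
  let K' : Finset G := K ∪ S.biUnion fun g => K.image (g * ·)
  have hK : ∀ r x, x ∈ KS c K r → x ∈ KS c K' r := fun r x hx =>
    KS_mono c Finset.subset_union_left r hx
  have hK' : ∀ g ∈ S, ∀ r x, g⁻¹ • x ∈ KS c K r → x ∈ KS c K' r := fun g hg r x hx =>
    KS_mono c ((Finset.subset_biUnion_of_mem (fun g => K.image (g * ·)) hg).trans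
      Finset.subset_union_right) r (KS_mul c g hx)
  -- the parameters
  set A : ℝ := ∑ g ∈ S, ‖φ.coeff g‖ with hA
  have hA0 : 0 ≤ A := Finset.sum_nonneg fun g _ => norm_nonneg _
  set t : ℝ := η / (A + 1) with ht
  have ht0 : 0 < t := by positivity
  set ε : ℝ := t ^ 2 / (8 * (C ^ 2 + 1) * (K'.card + 1)) with hε
  have hε0 : 0 < ε := by positivity
  obtain ⟨N, hN⟩ := c.hyp (S.biUnion fun g => qq K' g) ε hε0
  -- eventually the errors are small
  have hlim : Tendsto (fun r => ∑ g ∈ S, ∑ h ∈ hh K' N, C ^ 2 * ‖s.δ g h r‖ ^ 2) atTop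
      (𝓝 0) := by
    have h1 : Tendsto (fun r => ∑ g ∈ S, ∑ h ∈ hh K' N, C ^ 2 * ‖s.δ g h r‖ ^ 2) atTop
        (𝓝 (∑ g ∈ S, ∑ h ∈ hh K' N, C ^ 2 * (0 : ℝ) ^ 2)) :=
      tendsto_finsetSum _ fun g _ => tendsto_finsetSum _ fun h _ =>
        ((s.lim g h).pow 2).const_mul (C ^ 2)
    simpa using h1
  filter_upwards [hlim.eventually (gt_mem_nhds (show 0 < t ^ 2 / 2 by positivity)), hN] with r hr
    ⟨E, W, hW, hE, hEK⟩
  have hξ := norm_vf_le s K' r E
  have hone : ∀ x, x ∈ KS c K' r → ‖vf s K' r E x‖ = 1 := fun x hx => norm_vf s K' r E x hx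
  have hcore := norm_core s φ r (u r) (vf s K' r E) hξ
    (fun x hx => hone x (hK r x ((hu r x).2 hx)))
    (fun g hg x hx => hone x (hK' g hg r x ((hu r _).2 hx))) t (fun g hg => ?_)
  · refine hcore.trans (add_le_add le_rfl ?_)
    rw [← hA, ht]
    calc A * (η / (A + 1)) ≤ (A + 1) * (η / (A + 1)) := by gcongr; linarith
      _ = η := by field_simp
  · -- the defect
    -- the bad points
    set Bx : Finset (XX G) := (K' ×ˢ W).image fun k => (k.1 * (c.f r k.2)⁻¹, c.lab r k.2)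
      with hBx
    have hBx1 : (Bx.card : ℝ) ≤ K'.card * (ε * c.a r) := by
      have h1 : Bx.card ≤ K'.card * W.card := by
        refine Finset.card_image_le.trans ?_
        rw [Finset.card_product]
      calc (Bx.card : ℝ) ≤ K'.card * W.card := by exact_mod_cast h1
        _ ≤ K'.card * (ε * c.a r) := by gcongr
    have hpos := c.pos r
    set b : ℝ := 4 * C ^ 2 / c.a r with hb
    have hb0 : 0 ≤ b := by positivity
    have hF1 : Summable fun x : XX G => if x ∈ Bx then b else 0 :=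
      summable_of_ne_finset_zero (s := Bx) fun x hx => if_neg hx
    have hF2 : Summable fun x => ∑ h ∈ hh K' N, C ^ 2 * ‖s.δ g h r x‖ ^ 2 :=
      summable_sum fun h _ => (Raw.summable_sq (s.δ g h r)).mul_left _
    refine norm_defect_le s (vf s K' r E) hξ (u r) g r ht0.le
      (fun x => (if x ∈ Bx then b else 0) + ∑ h ∈ hh K' N, C ^ 2 * ‖s.δ g h r x‖ ^ 2)
      (hF1.add hF2) ?_ (fun x => ?_)
    · rw [hF1.tsum_add hF2, tsum_eq_sum (s := Bx) fun x hx => if_neg hx]
      have e0 : ∑ x ∈ Bx, (if x ∈ Bx then b else 0) = Bx.card * b := by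
        rw [Finset.sum_congr rfl fun x hx => if_pos hx, Finset.sum_const, nsmul_eq_mul]
      have e1 : ∑' x, ∑ h ∈ hh K' N, C ^ 2 * ‖s.δ g h r x‖ ^ 2 =
          ∑ h ∈ hh K' N, C ^ 2 * ‖s.δ g h r‖ ^ 2 := by
        rw [Summable.tsum_finsetSum fun h _ => (Raw.summable_sq (s.δ g h r)).mul_left _]
        refine Finset.sum_congr rfl fun h _ => ?_
        rw [tsum_mul_left, ← Raw.norm_sq_eq]
      have e2 : ∑ h ∈ hh K' N, C ^ 2 * ‖s.δ g h r‖ ^ 2 ≤
          ∑ g ∈ S, ∑ h ∈ hh K' N, C ^ 2 * ‖s.δ g h r‖ ^ 2 :=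
        Finset.single_le_sum (f := fun g => ∑ h ∈ hh K' N, C ^ 2 * ‖s.δ g h r‖ ^ 2)
          (fun g _ => Finset.sum_nonneg fun h _ => by positivity) hg
      have e3 : (Bx.card : ℝ) * b ≤ t ^ 2 / 2 := by
        calc (Bx.card : ℝ) * b ≤ K'.card * (ε * c.a r) * b := by gcongr
          _ = 4 * C ^ 2 * K'.card * ε := by rw [hb]; field_simp
          _ ≤ 4 * (C ^ 2 + 1) * (K'.card + 1) * ε := by gcongr <;> linarith
          _ = t ^ 2 / 2 := by rw [hε]; field_simp; ring
      rw [e0, e1]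
      linarith
    · have hs0 : 0 ≤ ∑ h ∈ hh K' N, C ^ 2 * ‖s.δ g h r x‖ ^ 2 :=
        Finset.sum_nonneg fun h _ => by positivity
      have hi0 : 0 ≤ (if x ∈ Bx then b else 0) := by split_ifs <;> simp [hb0]
      by_cases hx0 : u r (g⁻¹ • x) = 0
      · rw [hx0, norm_zero]
        simpa using add_nonneg hi0 hs0
      · have hyK : g⁻¹ • x ∈ KS c K r := (hu r _).2 hx0
        have hy : g⁻¹ • x ∈ KS c K' r := hK r _ hyK
        have hx : x ∈ KS c K' r := hK' g hg r x hyK
        have hC : ‖u r (g⁻¹ • x)‖ ^ 2 * c.a r ≤ C ^ 2 := by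
          have h1 := (hu r (g⁻¹ • x)).1
          have h2 : ‖u r (g⁻¹ • x)‖ ^ 2 * c.a r = (‖u r (g⁻¹ • x)‖ * √(c.a r)) ^ 2 := by
            rw [mul_pow, Real.sq_sqrt (c.pos r).le]
          rw [h2]
          gcongr
        by_cases hbad : rh c K' r x ∈ W
        · have hxB : x ∈ Bx := by
            obtain ⟨_, k, hk, e⟩ := rh_spec c K' hx
            rw [hBx, Finset.mem_image]
            exact ⟨(k, rh c K' r x), Finset.mk_mem_product hk hbad, e.symm⟩
          rw [if_pos hxB]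
          have h3 := norm_vf_sub_le s K' r E g x
          have h4 : ‖u r (g⁻¹ • x)‖ ^ 2 * ‖s.σ g r x • vf s K' r E x -
              vf s K' r E (g⁻¹ • x)‖ ^ 2 ≤ b := by
            calc ‖u r (g⁻¹ • x)‖ ^ 2 * ‖s.σ g r x • vf s K' r E x -
                  vf s K' r E (g⁻¹ • x)‖ ^ 2 ≤ ‖u r (g⁻¹ • x)‖ ^ 2 * 4 := by gcongr
              _ = 4 * (‖u r (g⁻¹ • x)‖ ^ 2 * c.a r) / c.a r := by field_simp
              _ ≤ 4 * C ^ 2 / c.a r := by gcongr
          linarith
        · obtain ⟨n1, n2⟩ := rh_near c K' g hx hy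
          have hxy : E (rh c K' r x) (rh c K' r (g⁻¹ • x)) :=
            hEK _ (rh_spec c K' hx).1 hbad _ (rh_spec c K' hy).1 n1
              (Finset.mem_biUnion.2 ⟨g, hg, n2⟩)
          have hv := norm_vf_sub s K' r E g x hx hy N hE hxy
          calc ‖u r (g⁻¹ • x)‖ ^ 2 * ‖s.σ g r x • vf s K' r E x -
                vf s K' r E (g⁻¹ • x)‖ ^ 2
              ≤ ‖u r (g⁻¹ • x)‖ ^ 2 * (∑ h ∈ hh K' N, c.a r * ‖s.δ g h r x‖ ^ 2) := by gcongr
            _ = ∑ h ∈ hh K' N, (‖u r (g⁻¹ • x)‖ ^ 2 * c.a r) * ‖s.δ g h r x‖ ^ 2 := by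
              rw [Finset.mul_sum]
              exact Finset.sum_congr rfl fun h _ => by ring
            _ ≤ ∑ h ∈ hh K' N, C ^ 2 * ‖s.δ g h r x‖ ^ 2 := by
              refine Finset.sum_le_sum fun h _ => ?_
              exact mul_le_mul_of_nonneg_right hC (by positivity)
            _ ≤ _ := by linarith

/-- no index. -/
lemma norm_asym' (φ : MonoidAlgebra ℂ G) {K : Finset G} {C : ℝ} {u : BB G}
    (hu : Bd c K C u) {η : ℝ} (hη : 0 < η) :
    ∀ᶠ r in atTop, ‖∑ g ∈ φ.coeff.support, φ.coeff g • opL s g r (u r)‖ ≤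
      ‖Raw.T G G φ‖ * ‖u r‖ + η := by
  rcases isEmpty_or_nonempty ι with hι | hι
  · refine Eventually.of_forall fun r => ?_
    have h0 : u r = 0 := by
      refine lp.ext (funext fun x => ?_)
      by_contra h
      obtain ⟨_, _, p, _, _⟩ := (hu r x).2 h
      exact hι.elim p
    have h1 : ∑ g ∈ φ.coeff.support, φ.coeff g • opL s g r (u r) = 0 := by
      refine Finset.sum_eq_zero fun g _ => ?_
      rw [h0, map_zero, smul_zero]
    rw [h1, norm_zero]
    positivity
  · exact norm_asym s φ hu hη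

/-- the twisted representation on the asymptotic space is weakly contained in the regular one. -/
theorem norm_TW_le (φ : MonoidAlgebra ℂ G) (v : V c) :
    ‖TW (opHom s) φ v‖ ≤ ‖Raw.T G G φ‖ * ‖v‖ := by
  classical
  obtain ⟨u, hu, rfl⟩ := cl_surj c v
  set S := φ.coeff.support with hS
  set A : ℝ := ∑ g ∈ S, ‖φ.coeff g‖ with hA
  have hA0 : 0 ≤ A := Finset.sum_nonneg fun g _ => norm_nonneg _
  set T := ‖Raw.T G G φ‖ with hT
  have hT0 : 0 ≤ T := norm_nonneg _
  -- the sequence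
  let w : BB G := ∑ g ∈ S, φ.coeff g • opB s g u
  have hw : Loc c w := (locS c).sum_mem fun g _ => (locS c).smul_mem _ (hu.op s g)
  have hwr : ∀ r, w r = ∑ g ∈ S, φ.coeff g • opL s g r (u r) := by
    intro r
    have h3 : ((∑ g ∈ S, φ.coeff g • opB s g u : BB G) : ∀ _ : ℕ, Raw.L2 (XX G)) =
        ∑ g ∈ S, ((φ.coeff g • opB s g u : BB G) : ∀ _ : ℕ, Raw.L2 (XX G)) :=
      map_sum (lp.coeFnAddMonoidHom (fun _ : ℕ => Raw.L2 (XX G)) ⊤) _ _
    show ((∑ g ∈ S, φ.coeff g • opB s g u : BB G) : ∀ _ : ℕ, Raw.L2 (XX G)) r = _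
    rw [h3, Finset.sum_apply]
    rfl
  have h1 : TW (opHom s) φ (cl c u hu) = cl c w hw := by
    rw [TW_apply]
    have h2 : cl c w hw = (nul c).mkQ (∑ g ∈ S, φ.coeff g • opS s g ⟨u, hu⟩) := by
      show (nul c).mkQ ⟨w, hw⟩ = _
      congr 1
      apply Subtype.ext
      rw [Submodule.coe_sum]
      rfl
    rw [h2, map_sum]
    refine Finset.sum_congr rfl fun g _ => ?_
    rw [map_smul]
    rfl
  rw [h1]
  refine le_of_forall_pos_le_add fun η hη => ?_
  -- approximation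
  set ε : ℝ := η / (4 * (A + T + 1)) with hε
  have hε0 : 0 < ε := by positivity
  obtain ⟨K, C, u', hu', hu1⟩ := hu ε hε0
  refine norm_cl_le c hw (by positivity) ?_
  filter_upwards [hu1, norm_asym' s φ hu' (show 0 < η / 4 by positivity),
    eventually_le c hu hε0] with r h2 h3 h4
  rw [hwr]
  have e1 : ∑ g ∈ S, φ.coeff g • opL s g r (u r) =
      ∑ g ∈ S, φ.coeff g • opL s g r (u r - u' r) + ∑ g ∈ S, φ.coeff g • opL s g r (u' r) := by
    rw [← Finset.sum_add_distrib]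
    refine Finset.sum_congr rfl fun g _ => ?_
    rw [← smul_add, ← map_add, sub_add_cancel]
  have e2 : ‖∑ g ∈ S, φ.coeff g • opL s g r (u r - u' r)‖ ≤ A * ε := by
    refine (norm_sum_le _ _).trans ?_
    rw [hA, Finset.sum_mul]
    refine Finset.sum_le_sum fun g _ => ?_
    rw [norm_smul, norm_opL]
    exact mul_le_mul_of_nonneg_left h2 (norm_nonneg _)
  have e3 : ‖u' r‖ ≤ ‖u r‖ + ε := by
    have : u' r = u r - (u r - u' r) := by abel
    rw [this]
    exact (norm_sub_le _ _).trans (by linarith)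
  have e4 : T * ‖u' r‖ ≤ T * ‖cl c u hu‖ + T * (2 * ε) := by
    rw [← mul_add]
    exact mul_le_mul_of_nonneg_left (by linarith) hT0
  have e5 : A * ε + T * (2 * ε) ≤ η / 2 := by
    calc A * ε + T * (2 * ε) ≤ 2 * ((A + T + 1) * ε) := by nlinarith
      _ = η / 2 := by rw [hε]; field_simp; ring
  rw [e1]
  refine (norm_add_le _ _).trans ?_
  linarith

/-- the reduced group C*-algebra acts on the asymptotic space. -/
theorem exists_rep : ∃ R : Cr G →+* (V c →L[ℂ] V c),
    ∀ (g : G) (u : BB G) (hu : Loc c u), R (lam G g) (cl c u hu) = cl c (opB s g u) (hu.op s g) := by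
  obtain ⟨R, hR⟩ := exists_ext' (ρ := opHom s) (norm_TW_le s)
  refine ⟨R, fun g u hu => ?_⟩
  rw [hR]
  rfl

end Pool.Agent.LibQM51
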